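import Pool.Agent.Helper98.HX.Final
import Pool.Agent.Helper79.HC.PLe
import Pool.Agent.Helper79.HC.ResultOf

/-!
# Planar clusters of regions of equal area: minimal clusters do not approach a regular hexagon

`p N` is the least perimeter of `N`-clusters of sets of finite perimeter with area `3√3/2`.  Cox,
Graner et al. conjectured that large minimizing clusters approach one big regular hexagon.  Here:
clusters whose union is close in area to a regular hexagon have perimeter at least
`3 N + (π - ε) √N`, and minimizing and nearly minimizing clusters are far from regular hexagons.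
-/

set_option autoImplicit false

namespace Pool.Agent.Results.MP_0e6ba8_gt.NotHexagon

open Pool.Agent.Helper79.HC Pool.Agent.Helper98.HX
open scoped symmDiff

/-- `hexagon a (√N w)`, `‖w‖ = 1`, is the regular hexagon with centre `a`, side length `√N` and area
`N A0`; all these hexagons are considered.  First part: for every `ε > 0` there is `δ > 0` such that for
large `N` every `N`-cluster whose union differs from such a hexagon by a set of area at most `δ N` has
perimeter at least `3 N + (π - ε) √N`.  Second part: there is `δ > 0` such that for large `N` the union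
of a cluster with perimeter at most `p N + δ √N` differs from every such hexagon by a set of area more
than `δ N`. -/
theorem result :
    (∀ ε : ℝ, 0 < ε → ∃ δ : ℝ, 0 < δ ∧ ∀ᶠ N : ℕ in Filter.atTop,
      ∀ R : Fin N → Set ℂ, IsCluster R → ∀ a w : ℂ, ‖w‖ = 1 →
        MeasureTheory.volume ((⋃ i, R i) ∆ hexagon a ((Real.sqrt N : ℝ) * w)) ≤
          ENNReal.ofReal (δ * N) →
        ENNReal.ofReal (3 * N + (Real.pi - ε) * Real.sqrt N) ≤ clusterPer R) ∧
    ∃ δ : ℝ, 0 < δ ∧ ∀ᶠ N : ℕ in Filter.atTop,
      ∀ R : Fin N → Set ℂ, IsCluster R →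
        clusterPer R ≤ p N + ENNReal.ofReal (δ * Real.sqrt N) → ∀ a w : ℂ, ‖w‖ = 1 →
          ENNReal.ofReal (δ * N) <
            MeasureTheory.volume ((⋃ i, R i) ∆ hexagon a ((Real.sqrt N : ℝ) * w)) := by
  refine ⟨fun ε hε => near_hexagon hε, ?_⟩
  obtain ⟨δ, hδ, hev⟩ := near_hexagon (ε := 1 / 100) (by norm_num)
  have hup := eventually_of (fun A D hD hA s M hs hM => p_le A D hD hA s M hs hM)
    (fun A D hD hA => card_bigK hD hA)
  refine ⟨min δ (1 / 1000), lt_min hδ (by norm_num), ?_⟩
  filter_upwards [hev, hup, Filter.eventually_ge_atTop 1] with N h1 h2 h3 R hR hp a w hw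
  by_contra hcon
  rw [not_lt] at hcon
  have hN : (1 : ℝ) ≤ N := by exact_mod_cast h3
  have hs : 0 < Real.sqrt N := Real.sqrt_pos.2 (by linarith)
  have h4 : MeasureTheory.volume ((⋃ i, R i) ∆ hexagon a ((Real.sqrt N : ℝ) * w)) ≤
      ENNReal.ofReal (δ * N) :=
    hcon.trans (ENNReal.ofReal_le_ofReal
      (mul_le_mul_of_nonneg_right (min_le_left _ _) (by linarith)))
  have h5 := h1 R hR a w hw h4
  have h6 : clusterPer R ≤ ENNReal.ofReal (3 * N + 3.118 * Real.sqrt N) := by
    refine hp.trans ((add_le_add_left h2 _).trans ?_)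
    rw [← ENNReal.ofReal_add (by positivity) (by positivity)]
    refine ENNReal.ofReal_le_ofReal ?_
    have : min δ (1 / 1000) * Real.sqrt N ≤ 1 / 1000 * Real.sqrt N :=
      mul_le_mul_of_nonneg_right (min_le_right _ _) hs.le
    linarith
  have h7 := h5.trans h6
  rw [ENNReal.ofReal_le_ofReal_iff (by positivity)] at h7
  have hpi := Real.pi_gt_d2
  nlinarith

end Pool.Agent.Results.MP_0e6ba8_gt.NotHexagon
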