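import Pool.Agent.Helper38.AS.Main2
import Pool.Agent.Helper98.LC.Liminf
import Pool.Agent.Helper79.HC.PLe
import Pool.Agent.Helper79.HC.ResultOf

/-!
# Planar clusters of regions of equal area: the round value is a strict lower bound

`p N` is the least perimeter of `N`-clusters of sets of finite perimeter with area `3√3/2`.  Heppes
and Morgan proved `p N > 3 N + 1.36 √N`, and their heuristic value for `lim (p N - 3 N) / √N` is
`K = π ^ (3/2) / 12 ^ (1/4)`, about `2.99`.  Here `p N ≥ 3 N + (K + ε) √N - C` for all `N`, with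
constants `ε > 0` and `C`, so that the limit inferior of `(p N - 3 N) / √N` is larger than `K`.
-/

set_option autoImplicit false

namespace Pool.Agent.Results.MP_0e6ba8_gt.StrictLower

open Pool.Agent.Helper79.HC

/-- The heuristic value `K = π ^ (3/2) / 12 ^ (1/4)` of Heppes and Morgan is a lower bound, and it
is strict: for some `ε > 0` and `C` one has `p N ≥ 3 N + (K + ε) √N - C` for all `N`, and the limit
inferior of `(p N - 3 N) / √N` is larger than `K`. -/
theorem result :
    (∃ ε : ℝ, 0 < ε ∧ ∃ C : ℝ, ∀ N : ℕ, ENNReal.ofReal (3 * N +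
      (Real.pi ^ (3 / 2 : ℝ) / (12 : ℝ) ^ (1 / 4 : ℝ) + ε) * Real.sqrt N - C) ≤ p N) ∧
    ((Real.pi ^ (3 / 2 : ℝ) / (12 : ℝ) ^ (1 / 4 : ℝ) : ℝ) : EReal) <
      Filter.liminf (fun N : ℕ => ((((p N).toReal - 3 * N) / Real.sqrt N : ℝ) : EReal))
        Filter.atTop := by
  have hfin : ∀ᶠ N : ℕ in Filter.atTop, p N < ⊤ := by
    have h := eventually_of (fun A D hD hA s M hs hM => p_le A D hD hA s M hs hM)
      (fun A D hD hA => card_bigK hD hA)
    filter_upwards [h] with N hN
    exact lt_of_le_of_lt hN ENNReal.ofReal_lt_top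
  rw [← Pool.Agent.Helper38.AS.K2_eq]
  obtain ⟨hK1, hK2⟩ := Pool.Agent.Helper38.AS.K2_num
  obtain ⟨δ, hδ, C, hC⟩ := Pool.Agent.Helper38.AS.conn_two
  have htwo := Pool.Agent.Helper38.AS.lower_gen
    (by linarith : 0 ≤ Pool.Agent.Helper38.AS.K2 + δ) hC
  refine ⟨⟨δ / 2, by linarith, C / 2, fun N => ?_⟩, ?_⟩
  · have h := htwo N
    rw [add_div] at h
    exact h
  · refine lt_of_lt_of_le ?_ (Pool.Agent.Helper98.LC.liminf_of htwo hfin)
    rw [EReal.coe_lt_coe_iff]
    linarith

end Pool.Agent.Results.MP_0e6ba8_gt.StrictLower
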