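import Pool.Agent.Helper79.HC.PLe
import Pool.Agent.Helper79.HC.ResultOf

/-!
# Planar clusters of regions of equal area: an upper bound below `π`

`p N` is the least perimeter of `N`-clusters of sets of finite perimeter with area `3√3/2`.  Heppes
and Morgan proved `p N < 3 N + π √N + 3`.  Here `p N ≤ 3 N + 3.117 √N` for all large `N`, so that
the limit superior of `(p N - 3 N) / √N` is less than `π`.
-/

set_option autoImplicit false

namespace Pool.Agent.Results.MP_0e6ba8_gt.UpperBound

open Pool.Agent.Helper79.HC

/-- For all large `N` the least perimeter of `N`-clusters of regions with the area of the regular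
hexagon with side length one is at most `3 N + 3.117 √N`. -/
theorem result :
    (∀ᶠ N : ℕ in Filter.atTop, p N ≤ ENNReal.ofReal (3 * N + 3.117 * Real.sqrt N)) ∧
    Filter.limsup (fun N : ℕ => ((((p N).toReal - 3 * N) / Real.sqrt N : ℝ) : EReal))
      Filter.atTop ≤ ((3.117 : ℝ) : EReal) ∧
    (3.117 : ℝ) < Real.pi := by
  have h := eventually_of (fun A D hD hA s M hs hM => p_le A D hD hA s M hs hM)
    (fun A D hD hA => card_bigK hD hA)
  refine ⟨h, limsup_of h, ?_⟩
  have := Real.pi_gt_d2
  linarith

end Pool.Agent.Results.MP_0e6ba8_gt.UpperBound
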